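import Pool.Agent.H174.GP.StD

/-!
# Project GP (helper174): upper bound for `a2`
-/

set_option autoImplicit false

open MeasureTheory ProbabilityTheory Finset

namespace Pool.Agent.H795.GP174

open Pool.Agent.H174.GP

theorem aa_nonneg (h2 : S_aalaw) (d : ℕ) (σ : ℝ) (hσ : 0 < σ) (m : ℤ) : 0 ≤ aa d σ m := by
  rw [h2 d σ m hσ]
  exact measureReal_nonneg

/-- The total mass of `aa` is at most `1`. -/
theorem aa_sum_le (h2 : S_aalaw) (d : ℕ) (σ : ℝ) (hσ : 0 < σ) (N : ℕ) :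
    ∑ j ∈ Finset.range N, aa d σ (j : ℤ) ≤ 1 := by
  obtain ⟨S, hS⟩ : ∃ S : (ℕ → ℝ) → ℤ, S = fun ω =>
      ∑ j ∈ Finset.Icc 1 d, (j : ℤ) * ⌊|ω j| / (2 * σ * j)⌋ := ⟨_, rfl⟩
  have hm : Measurable S := by
    rw [hS]
    refine Finset.measurable_sum _ fun j _ => ?_
    refine Measurable.const_mul ?_ _
    refine Int.measurable_floor.comp ?_
    refine Measurable.div_const ?_ _
    exact (measurable_pi_apply j).abs
  have h1 : ∀ j ∈ Finset.range N, aa d σ (j : ℤ) = PP.real (S ⁻¹' {(j : ℤ)}) := by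
    intro j _
    rw [h2 d σ j hσ, hS]
    rfl
  have hinj : Function.Injective (fun j : ℕ => (j : ℤ)) := Nat.cast_injective
  calc ∑ j ∈ Finset.range N, aa d σ (j : ℤ)
      = ∑ j ∈ Finset.range N, PP.real (S ⁻¹' {(j : ℤ)}) := Finset.sum_congr rfl h1
    _ = ∑ y ∈ (Finset.range N).map ⟨fun j : ℕ => (j : ℤ), hinj⟩, PP.real (S ⁻¹' {y}) := by
        rw [Finset.sum_map]
        rfl
    _ = PP.real (S ⁻¹' ↑((Finset.range N).map ⟨fun j : ℕ => (j : ℤ), hinj⟩)) :=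
        sum_measureReal_preimage_singleton _ fun y _ => hm (measurableSet_singleton y)
    _ ≤ 1 := measureReal_le_one

theorem gp_a2u (h1 : S_B4u) (h2 : S_aalaw) : Pool.Agent.H174.GP.S_a2u := by
  intro s1 s2 hs1 hs2
  obtain ⟨C, hC, d0, H⟩ := h1 (s1 / 2) (s2 / 2) (by positivity) (by positivity)
  refine ⟨C, hC, d0, fun d hd σ hσ ha hb m => ?_⟩
  have hK : 0 ≤ C * (d : ℝ) ^ (-(3 / 2) : ℝ) :=
    mul_nonneg hC.le (Real.rpow_nonneg (Nat.cast_nonneg d) _)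
  have hσ2 : 0 < σ / 2 := by positivity
  have e1 : σ / 2 * d = σ * d / 2 := by ring
  have H' := H d hd (σ / 2) hσ2 (by rw [e1]; linarith) (by rw [e1]; linarith)
  unfold a2
  split_ifs with hm
  · calc ∑ j ∈ Finset.range (m.toNat + 1), aa d (σ / 2) j * aa d (σ / 2) (m - j)
        ≤ ∑ j ∈ Finset.range (m.toNat + 1), aa d (σ / 2) j * (C * (d : ℝ) ^ (-(3 / 2) : ℝ)) :=
          Finset.sum_le_sum fun j _ =>
            mul_le_mul_of_nonneg_left (H' _) (aa_nonneg h2 d _ hσ2 _)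
      _ = (∑ j ∈ Finset.range (m.toNat + 1), aa d (σ / 2) j) *
            (C * (d : ℝ) ^ (-(3 / 2) : ℝ)) := by rw [Finset.sum_mul]
      _ ≤ 1 * (C * (d : ℝ) ^ (-(3 / 2) : ℝ)) :=
          mul_le_mul_of_nonneg_right (aa_sum_le h2 d _ hσ2 _) hK
      _ = C * (d : ℝ) ^ (-(3 / 2) : ℝ) := one_mul _
  · exact hK

end Pool.Agent.H795.GP174
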